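import Pool.Agent.helper79.SX.Spec

/-!
# Project sx (MP_5628fe_nt), module CNT
-/

set_option autoImplicit false

open Finset ArithmeticFunction

namespace Pool.Agent.SX

theorem CNT_wt_nonneg {n p : ℕ} (hp : 0 < p) (hpn : p ≤ n) : 0 ≤ wt n p := by
  unfold wt
  have h1 : Real.log p ≤ Real.log ((n : ℝ) + 1) := by
    apply Real.log_le_log (by exact_mod_cast hp)
    have : (p : ℝ) ≤ n := by exact_mod_cast hpn
    linarith
  have h2 : 0 < Real.log ((n : ℝ) + 1) := by
    apply Real.log_pos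
    have : (0 : ℝ) < n := by exact_mod_cast (lt_of_lt_of_le hp hpn)
    linarith
  rw [sub_nonneg, div_le_one h2]
  exact h1

theorem CNT : CNT_stmt := by
  classical
  intro n h hn hh
  set F := (An n).filter (fun m => ∀ p ∈ Pr h, ¬ p ∣ m * (m + 6)) with hF
  have hS0 : S (An n) (Pr h) ∅ = F.card := by
    unfold S
    rw [hF]
    congr 1
    apply filter_congr
    intro m _
    simp
  have hSp : ∀ p, S (An n) (Pr h) {p} = (F.filter (fun m => p ∣ m * (m + 6))).card := by
    intro p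
    unfold S
    rw [hF, filter_filter]
    congr 1
    apply filter_congr
    intro m _
    simp only [mem_singleton, forall_eq]
    tauto
  have hwt : ∀ p ∈ Rg n h, 0 ≤ wt n p := by
    intro p hp
    unfold Rg at hp
    rw [mem_filter, mem_range] at hp
    exact CNT_wt_nonneg hp.2.1.pos (by omega)
  have hWt : ∑ m ∈ F, Wt n h m = ∑ p ∈ Rg n h, wt n p * (S (An n) (Pr h) {p} : ℝ) := by
    unfold Wt
    have h1 : ∀ m ∈ F, ∑ p ∈ (Rg n h).filter (fun p => p ∣ m * (m + 6)), wt n p =
        ∑ p ∈ Rg n h, if p ∣ m * (m + 6) then wt n p else 0 := by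
      intro m _
      rw [sum_filter]
    rw [sum_congr rfl h1, sum_comm]
    apply sum_congr rfl
    intro p _
    rw [hSp, ← sum_filter, sum_const, nsmul_eq_mul, mul_comm]
  have hWt0 : ∀ m, 0 ≤ Wt n h m := by
    intro m
    unfold Wt
    apply sum_nonneg
    intro p hp
    exact hwt p (mem_filter.1 hp).1
  have hpt : ∀ m ∈ F, 1 - 1 / 2 * Wt n h m ≤ (if m ∈ Gd n h then (1 : ℝ) else 0) +
      ∑ p ∈ Rg n h, if (p ^ 2 ∣ m ∨ p ^ 2 ∣ m + 6) then (1 : ℝ) else 0 := by
    intro m hm
    have h0 := hWt0 m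
    have hsum0 : 0 ≤ ∑ p ∈ Rg n h, if (p ^ 2 ∣ m ∨ p ^ 2 ∣ m + 6) then (1 : ℝ) else 0 := by
      apply sum_nonneg
      intro p _
      split_ifs <;> norm_num
    by_cases hG : m ∈ Gd n h
    · rw [if_pos hG]
      linarith
    · rw [if_neg hG, zero_add]
      by_cases hW : Wt n h m < 2
      · -- a square divides
        have hex : ∃ p ∈ Rg n h, p ^ 2 ∣ m ∨ p ^ 2 ∣ m + 6 := by
          by_contra hcon
          push Not at hcon
          apply hG
          unfold Gd
          rw [hF, mem_filter] at hm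
          rw [mem_filter]
          exact ⟨hm.1, hm.2, hcon, hW⟩
        obtain ⟨p, hp, hpd⟩ := hex
        have h1 : (1 : ℝ) ≤ ∑ p ∈ Rg n h, if (p ^ 2 ∣ m ∨ p ^ 2 ∣ m + 6) then (1 : ℝ) else 0 := by
          have h2 := single_le_sum (f := fun p => if (p ^ 2 ∣ m ∨ p ^ 2 ∣ m + 6) then (1 : ℝ) else 0)
            (s := Rg n h) (fun q _ => by split_ifs <;> norm_num) hp
          simp only [if_pos hpd] at h2
          exact h2
        linarith
      · push Not at hW
        linarith
  have hsum := sum_le_sum hpt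
  rw [sum_sub_distrib, ← mul_sum, hWt, sum_const, nsmul_eq_mul, mul_one, sum_add_distrib,
    sum_comm] at hsum
  have h1 : (∑ m ∈ F, if m ∈ Gd n h then (1 : ℝ) else 0) ≤ ((Gd n h).card : ℝ) := by
    rw [← sum_filter, sum_const, nsmul_eq_mul, mul_one]
    have : (F.filter (fun m => m ∈ Gd n h)).card ≤ (Gd n h).card := by
      apply card_le_card
      intro m hm
      exact (mem_filter.1 hm).2
    exact_mod_cast this
  have h2 : (∑ p ∈ Rg n h, ∑ m ∈ F, if (p ^ 2 ∣ m ∨ p ^ 2 ∣ m + 6) then (1 : ℝ) else 0) ≤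
      ∑ p ∈ Rg n h, ((((An n).filter fun m => p ^ 2 ∣ m ∨ p ^ 2 ∣ m + 6).card : ℕ) : ℝ) := by
    apply sum_le_sum
    intro p _
    rw [← sum_filter, sum_const, nsmul_eq_mul, mul_one]
    have : (F.filter (fun m => p ^ 2 ∣ m ∨ p ^ 2 ∣ m + 6)).card ≤
        ((An n).filter fun m => p ^ 2 ∣ m ∨ p ^ 2 ∣ m + 6).card := by
      apply card_le_card
      intro m hm
      rw [mem_filter, hF, mem_filter] at hm
      rw [mem_filter]
      exact ⟨hm.1.1, hm.2⟩
    exact_mod_cast this
  rw [hS0]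
  linarith

end Pool.Agent.SX
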